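import Pool.Agent.Run7.h520.BU.CARD

/-! Piece ASY: types which differ at a large number only agree on simple formulas. -/

set_option autoImplicit false

namespace Run7.h520.BU
open FirstOrder FirstOrder.Language

namespace ASY

theorem cd_none (l : ℕ) : cd none l = none := rfl

theorem cd_inj {z w : Option (ℕ × ℕ × List (Bool × ℕ))} (h : ∀ l, cd z l = cd w l) : z = w := by
  rcases z with _ | ⟨i, k, s⟩ <;> rcases w with _ | ⟨i', k', s'⟩
  · rfl
  · have := h i'
    simp [cd] at this
  · have := h i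
    simp [cd] at this
  · have hi : i = i' := by
      rcases lt_trichotomy i i' with hlt | heq | hgt
      · have := h i
        simp [cd, hlt] at this
      · exact heq
      · have := h i'
        simp [cd, hgt] at this
    subst hi
    have hk : k = k' := by
      have := h i
      simpa [cd] using this
    subst hk
    have hs : s = s' := by
      apply List.ext_getElem?
      intro j
      have h1 := h (i + 1 + j)
      have e1 : ¬ i + 1 + j < i := by omega
      have e2 : ¬ i + 1 + j = i := by omega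
      have e3 : i + 1 + j - i - 1 = j := by omega
      simpa [cd, e1, e2, e3] using h1
    rw [hs]

variable {c c' : ℕ → Bool} {m n : ℕ}

/-- equality from the equivalence relations, outside the named points -/
theorem er_eq {z w : Option (ℕ × ℕ × List (Bool × ℕ))} (h : ∀ i, ER i (Sum.inr z) (Sum.inr w)) : z = w :=
  cd_inj fun l => h (l + 1) l (Nat.lt_succ_self l)

theorem cor_inr {z : Option (ℕ × ℕ × List (Bool × ℕ))} {y : Raw} (h : Cor c c' m n (Sum.inr z) y) :
    ∃ w, y = Sum.inr w := by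
  rcases z with _ | ⟨i, k, s⟩
  · exact ⟨none, h⟩
  · rcases h with ⟨-, h⟩ | ⟨-, s', h, -⟩
    · exact ⟨_, h⟩
    · exact ⟨_, h⟩

theorem cor_named {x y : Raw} (h : Cor c c' m n x y) (d : Pt0) : x = Sum.inl d ↔ y = Sum.inl d := by
  rcases x with e | z
  · have : y = Sum.inl e := h
    rw [this]
  · obtain ⟨w, rfl⟩ := cor_inr h
    simp

theorem cot_eq {α : Type} {s : α → Pt c} {s' : α → Pt c'} (h : Cot c c' m n s s') (a b : α) :
    s a = s b ↔ s' a = s' b := by
  have hx := h.1 a
  have hy := h.1 b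
  have hE := fun i => h.2 i a b
  constructor
  · intro hab
    have hE' : ∀ i, ER i (s' a).1 (s' b).1 := fun i => (hE i).1 (by rw [hab]; exact (er_eqv i).refl _)
    apply Subtype.ext
    rw [hab] at hx
    rcases hb : (s b).1 with e | z
    · rw [hb] at hx hy
      have h1 : (s' a).1 = Sum.inl e := hx
      have h2 : (s' b).1 = Sum.inl e := hy
      rw [h1, h2]
    · rw [hb] at hx hy
      obtain ⟨w, hw⟩ := cor_inr hx
      obtain ⟨w', hw'⟩ := cor_inr hy
      rw [hw, hw'] at hE' ⊢
      rw [er_eq hE']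
  · intro hab
    have hE' : ∀ i, ER i (s a).1 (s b).1 := fun i => (hE i).2 (by rw [hab]; exact (er_eqv i).refl _)
    apply Subtype.ext
    rcases ha : (s a).1 with e | z
    · have h1 := (cor_named hx e).1 ha
      have h2 : (s' b).1 = Sum.inl e := by rw [← hab]; exact h1
      exact ((cor_named hy e).2 h2).symm
    · rcases hb : (s b).1 with e | z'
      · have h1 := (cor_named hy e).1 hb
        have h2 : (s' a).1 = Sum.inl e := by rw [hab]; exact h1
        have h3 := (cor_named hx e).2 h2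
        rw [ha] at h3
        exact absurd h3 (by simp)
      · rw [ha, hb] at hE'
        rw [er_eq hE']

theorem adm_zero {b b' : Bool} (h : Adm n 0 b b') : b = b' := by
  rcases h with h | ⟨-, -, h, -⟩ | ⟨-, -, h⟩
  · exact h
  · omega
  · omega

theorem adm_swap {j : ℕ} {b b' : Bool} (h : Adm (n + 1) j b b') : Adm n j b' b := by
  rcases h with h | ⟨h1, h2, h3, h4⟩ | ⟨h1, h2, h3⟩
  · exact Or.inl h.symm
  · exact Or.inr (Or.inr ⟨h2, h1, h4⟩)
  · exact Or.inr (Or.inl ⟨h2, h1, by omega, by omega⟩)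

theorem adm_big {b b' : Bool} (h : n < m) : Adm n m b b' := by
  rcases b with _ | _ <;> rcases b' with _ | _
  · exact Or.inl rfl
  · exact Or.inr (Or.inl ⟨rfl, rfl, by omega, by omega⟩)
  · exact Or.inr (Or.inr ⟨rfl, rfl, by omega⟩)
  · exact Or.inl rfl

theorem cor_Q (hc : ∀ i, i ≠ m → c i = c' i) {x : Pt c} {y : Pt c'} (h : Cor c c' m n x.1 y.1) :
    QR c x.1 ↔ QR c' y.1 := by
  obtain ⟨x, hx⟩ := x
  obtain ⟨y, hy⟩ := y
  change Cor c c' m n x y at h
  change QR c x ↔ QR c' y
  rcases x with e | _ | ⟨i, k, s⟩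
  · have : y = Sum.inl e := h
    subst this
    exact Iff.rfl
  · have : y = Sum.inr none := h
    subst this
    exact Iff.rfl
  · rcases h with ⟨hi, rfl⟩ | ⟨rfl, s', rfl, hs', hA⟩
    · show lab (c i) s = true ↔ lab (c' i) s = true
      rw [hc i hi]
    · show lab (c i) s = true ↔ lab (c' i) s' = true
      have h1 := hA i le_rfl
      rw [Nat.sub_self] at h1
      have h2 := adm_zero h1
      have hs : s.length = i := hx.1
      rw [List.take_of_length_le hs.le, List.take_of_length_le hs'.le] at h2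
      rw [h2]

theorem cor_swap {x : Pt c} {y : Pt c'} (h : Cor c c' m (n + 1) x.1 y.1) : Cor c' c m n y.1 x.1 := by
  obtain ⟨x, hx⟩ := x
  obtain ⟨y, hy⟩ := y
  change Cor c c' m (n + 1) x y at h
  change Cor c' c m n y x
  rcases x with e | _ | ⟨i, k, s⟩
  · have : y = Sum.inl e := h
    subst this
    exact rfl
  · have : y = Sum.inr none := h
    subst this
    exact rfl
  · rcases h with ⟨hi, rfl⟩ | ⟨rfl, s', rfl, hs', hA⟩
    · exact Or.inl ⟨hi, rfl⟩
    · exact Or.inr ⟨rfl, s, rfl, hx.1, fun l hl => adm_swap (hA l hl)⟩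

theorem cot_swap {α : Type} {s : α → Pt c} {s' : α → Pt c'} (h : Cot c c' m (n + 1) s s') : Cot c' c m n s' s :=
  ⟨fun a => cor_swap (h.1 a), fun i a b => (h.2 i a b).symm⟩

/-- terms are variables -/
theorem term_var {α : Type} (t : LB.Term α) : ∃ a, t = Term.var a := by
  rcases t with a | ⟨f, _⟩
  · exact ⟨a, rfl⟩
  · exact f.elim

/-- quantifier free formulas -/
theorem cot_qf (hc : ∀ i, i ≠ m → c i = c' i) {k : ℕ} {v : Fin 1 → Pt c} {v' : Fin 1 → Pt c'} {s : Fin k → Pt c}
    {s' : Fin k → Pt c'} (h : Cot c c' m n (Sum.elim v s) (Sum.elim v' s')) {φ : LB.BoundedFormula (Fin 1) k}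
    (hφ : φ.IsQF) :
    @BoundedFormula.Realize LB (Pt c) (XN c).str (Fin 1) k φ v s ↔
      @BoundedFormula.Realize LB (Pt c') (XN c').str (Fin 1) k φ v' s' := by
  induction hφ with
  | falsum => exact Iff.rfl
  | imp _ _ ih1 ih2 =>
    let _ := (XN c).str
    let _ := (XN c').str
    rw [BoundedFormula.realize_imp, BoundedFormula.realize_imp]
    exact imp_congr ih1 ih2
  | of_isAtomic hA =>
    rcases hA with ⟨t₁, t₂⟩ | ⟨R, ts⟩
    · obtain ⟨a, rfl⟩ := term_var t₁
      obtain ⟨b, rfl⟩ := term_var t₂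
      exact cot_eq h a b
    · have hts : ∀ j, ∃ a, ts j = Term.var a := fun j => term_var (ts j)
      choose a ha using hts
      obtain rfl : ts = fun j => Term.var (a j) := funext ha
      rcases R with d | _ | i
      · show Sum.elim v s (a 0) = (XN c).nm d ↔ Sum.elim v' s' (a 0) = (XN c').nm d
        have h1 := cor_named (h.1 (a 0)) d
        constructor
        · intro h2
          exact Subtype.ext (h1.1 (congrArg Subtype.val h2))
        · intro h2
          exact Subtype.ext (h1.2 (congrArg Subtype.val h2))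
      · exact cor_Q hc (h.1 (a 0))
      · exact h.2 i (a 0) (a 1)

/-- one step -/
theorem cot_step (hF : S_FORTH) (hn : 1 ≤ n) (hc : ∀ i, i ≠ m → c i = c' i) (hm : n < m) {k : ℕ} {v : Fin 1 → Pt c}
    {v' : Fin 1 → Pt c'} {s : Fin k → Pt c} {s' : Fin k → Pt c'} (h : Cot c c' m n (Sum.elim v s) (Sum.elim v' s'))
    (x : Pt c) : ∃ x' : Pt c', Cot c c' m n (Sum.elim v (Fin.snoc (α := fun _ => Pt c) s x))
      (Sum.elim v' (Fin.snoc (α := fun _ => Pt c') s' x')) := by
  obtain ⟨x', h1, h2⟩ := hF c c' m n hn hc (adm_big hm) (Fin 1 ⊕ Fin k) (Sum.elim v s) (Sum.elim v' s') h x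
  refine ⟨x', ?_, ?_⟩
  · rintro (a | a)
    · exact h.1 (Sum.inl a)
    · refine Fin.lastCases ?_ (fun a => ?_) a
      · simpa using h1
      · simpa using h.1 (Sum.inr a)
  · intro i
    rintro (a | a) (b | b)
    · exact h.2 i (Sum.inl a) (Sum.inl b)
    · refine Fin.lastCases ?_ (fun b => ?_) b
      · have h3 := h2 i (Sum.inl a)
        simp only [Sum.elim_inl, Sum.elim_inr, Fin.snoc_last]
        exact ⟨fun h4 => (er_eqv i).symm (h3.1 ((er_eqv i).symm h4)), fun h4 => (er_eqv i).symm (h3.2 ((er_eqv i).symm h4))⟩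
      · simpa using h.2 i (Sum.inl a) (Sum.inr b)
    · refine Fin.lastCases ?_ (fun a => ?_) a
      · simpa using h2 i (Sum.inl b)
      · simpa using h.2 i (Sum.inr a) (Sum.inl b)
    · refine Fin.lastCases ?_ (fun a => ?_) a
      · refine Fin.lastCases ?_ (fun b => ?_) b
        · simp only [Sum.elim_inr, Fin.snoc_last]
          exact ⟨fun _ => (er_eqv i).refl _, fun _ => (er_eqv i).refl _⟩
        · simpa using h2 i (Sum.inr b)
      · refine Fin.lastCases ?_ (fun b => ?_) b
        · have h3 := h2 i (Sum.inr a)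
          simp only [Sum.elim_inr, Fin.snoc_last, Fin.snoc_castSucc]
          simp only [Sum.elim_inr] at h3
          exact ⟨fun h4 => (er_eqv i).symm (h3.1 ((er_eqv i).symm h4)), fun h4 => (er_eqv i).symm (h3.2 ((er_eqv i).symm h4))⟩
        · simpa using h.2 i (Sum.inr a) (Sum.inr b)

theorem cot_init (c c' : ℕ → Bool) (m n : ℕ) : Cot c c' m n (Sum.elim (fun _ : Fin 1 => pa c) (default : Fin 0 → Pt c))
    (Sum.elim (fun _ : Fin 1 => pa c') (default : Fin 0 → Pt c')) := by
  refine ⟨?_, ?_⟩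
  · rintro (a | a)
    · exact rfl
    · exact a.elim0
  · intro i
    rintro (a | a) (b | b)
    · exact ⟨fun _ => (er_eqv i).refl _, fun _ => (er_eqv i).refl _⟩
    · exact b.elim0
    · exact a.elim0
    · exact a.elim0

end ASY

open ASY in
theorem asy : S_ASY := by
  intro hT hF c m n hnm b φ hφ
  have hc : ∀ i, i ≠ m → c i = Function.update c m (!c m) i := fun i hi => (Function.update_of_ne hi _ _).symm
  generalize Function.update c m (!c m) = c' at hc
  have hmain := @hT LB (Fin 1) (Pt c) (Pt c') (XN c).str (XN c').str (fun _ => pa c) (fun _ => pa c')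
    (fun n k s s' => n < m ∧ Cot c c' m n (Sum.elim (fun _ : Fin 1 => pa c) s) (Sum.elim (fun _ : Fin 1 => pa c') s'))
    (fun n k s s' => n < m ∧ Cot c' c m n (Sum.elim (fun _ : Fin 1 => pa c') s') (Sum.elim (fun _ : Fin 1 => pa c) s))
    (fun n k s s' h φ hφ => cot_qf hc h.2 hφ)
    (fun n k s s' h φ hφ => (cot_qf (fun i hi => (hc i hi).symm) h.2 hφ).symm)
    (fun n k s s' h => ⟨by omega, cot_swap h.2⟩)
    (fun n k s s' h => ⟨by omega, cot_swap h.2⟩)
    (fun n k s s' h x => by
      obtain ⟨x', hx'⟩ := cot_step hF (by omega) hc h.1 h.2 x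
      exact ⟨x', h.1, hx'⟩)
    (fun n k s s' h x' => by
      obtain ⟨x, hx⟩ := cot_step hF (by omega) (fun i hi => (hc i hi).symm) h.1 h.2 x'
      exact ⟨x, h.1, hx⟩)
    n 0 default default
  have hJ := cot_init c c' m n
  have hK := cot_init c' c m n
  cases b with
  | true => exact ⟨hmain.1 ⟨hnm, hJ⟩ φ hφ, hmain.2.2.1 ⟨hnm, hK⟩ φ hφ⟩
  | false => exact ⟨hmain.2.2.2 ⟨hnm, hK⟩ φ hφ, hmain.2.1 ⟨hnm, hJ⟩ φ hφ⟩

end Run7.h520.BU
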