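import Pool.Agent.Run7.h520.BU.I

/-! Piece AX: the axioms as sentences. -/

set_option autoImplicit false

namespace Run7.h520.BU
open FirstOrder FirstOrder.Language

namespace AX

variable {k : ℕ}

/-- atomic formulas -/
def fU (c : Pt0) (i : Fin k) : LB.BoundedFormula Empty k :=
  Relations.boundedFormula₁ (Rel.U c : LB.Relations 1) (Term.var (Sum.inr i))

def fQ (i : Fin k) : LB.BoundedFormula Empty k :=
  Relations.boundedFormula₁ (Rel.Q : LB.Relations 1) (Term.var (Sum.inr i))

def fE (j : ℕ) (i i' : Fin k) : LB.BoundedFormula Empty k :=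
  Relations.boundedFormula₂ (Rel.E j : LB.Relations 2) (Term.var (Sum.inr i)) (Term.var (Sum.inr i'))

def fq (i i' : Fin k) : LB.BoundedFormula Empty k :=
  Term.bdEqual (Term.var (Sum.inr i)) (Term.var (Sum.inr i'))

theorem qU (c : Pt0) (i : Fin k) : (fU c i).IsQF := (BoundedFormula.IsAtomic.rel _ _).isQF
theorem qQ (i : Fin k) : (fQ i).IsQF := (BoundedFormula.IsAtomic.rel _ _).isQF
theorem qE (j : ℕ) (i i' : Fin k) : (fE j i i').IsQF := (BoundedFormula.IsAtomic.rel _ _).isQF
theorem qq (i i' : Fin k) : (fq i i').IsQF := (BoundedFormula.IsAtomic.equal _ _).isQF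

section sem
variable {N : Type} [s : LB.Structure N]

/-- the relations of a structure -/
def sU (c : Pt0) (x : N) : Prop := s.RelMap (Rel.U c : LB.Relations 1) ![x]
def sQ (x : N) : Prop := s.RelMap (Rel.Q : LB.Relations 1) ![x]
def sE (j : ℕ) (x y : N) : Prop := s.RelMap (Rel.E j : LB.Relations 2) ![x, y]

theorem rU (c : Pt0) (i : Fin k) (v : Empty → N) (xs : Fin k → N) : (fU c i).Realize v xs ↔ sU c (xs i) := by
  exact BoundedFormula.realize_rel₁ (L := LB) (R := (Rel.U c : LB.Relations 1))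

theorem rQ (i : Fin k) (v : Empty → N) (xs : Fin k → N) : (fQ i).Realize v xs ↔ sQ (xs i) := by
  exact BoundedFormula.realize_rel₁ (L := LB) (R := (Rel.Q : LB.Relations 1))

theorem rE (j : ℕ) (i i' : Fin k) (v : Empty → N) (xs : Fin k → N) :
    (fE j i i').Realize v xs ↔ sE j (xs i) (xs i') := by
  exact BoundedFormula.realize_rel₂ (L := LB) (R := (Rel.E j : LB.Relations 2))

theorem rq (i i' : Fin k) (v : Empty → N) (xs : Fin k → N) : (fq i i').Realize v xs ↔ xs i = xs i' := by
  unfold fq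
  rw [BoundedFormula.realize_bdEqual]
  rfl

end sem

/-- the members of the component of a named point -/
noncomputable def cmp (c : Pt0) : List Pt0 :=
  c.1.1.2.attach.toList.map fun t => ⟨(c.1.1, t.1), t.2⟩

theorem mem_cmp (c d : Pt0) : d ∈ cmp c ↔ c.1.1 = d.1.1 := by
  constructor
  · intro hd
    obtain ⟨t, -, rfl⟩ := List.mem_map.1 hd
    rfl
  · intro h
    have hd : d.1.2 ∈ c.1.1.2 := by
      rw [h]
      exact d.2
    exact List.mem_map.2 ⟨⟨d.1.2, hd⟩, Finset.mem_toList.2 (Finset.mem_attach _ _), Subtype.ext (Prod.ext h rfl)⟩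

/-- the disjunction -/
noncomputable def fD (c : Pt0) (i : Fin k) : LB.BoundedFormula Empty k :=
  ((cmp c).map fun d => fU d i).foldr (· ⊔ ·) ⊥

theorem qD (c : Pt0) (i : Fin k) : (fD c i).IsQF := by
  unfold fD
  induction cmp c with
  | nil => exact BoundedFormula.isQF_bot
  | cons d l ih => exact (qU d i).sup ih

theorem rD {N : Type} [s : LB.Structure N] (c : Pt0) (i : Fin k) (v : Empty → N) (xs : Fin k → N) :
    (fD c i).Realize v xs ↔ ∃ d : Pt0, c.1.1 = d.1.1 ∧ sU d (xs i) := by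
  unfold fD
  rw [BoundedFormula.realize_foldr_sup]
  constructor
  · rintro ⟨φ, hφ, h⟩
    obtain ⟨d, hd, rfl⟩ := List.mem_map.1 hφ
    exact ⟨d, (mem_cmp c d).1 hd, (rU d i v xs).1 h⟩
  · rintro ⟨d, hd, h⟩
    exact ⟨_, List.mem_map.2 ⟨d, (mem_cmp c d).2 hd, rfl⟩, (rU d i v xs).2 h⟩

/-- the axioms -/
inductive Ix : Type
  | refl (i : ℕ) : Ix
  | symm (i : ℕ) : Ix
  | trans (i : ℕ) : Ix
  | nest (i : ℕ) : Ix
  | exi (c : Pt0) : Ix
  | uni (c : Pt0) : Ix
  | dif (c d : Pt0) (h : c ≠ d) : Ix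
  | dE (i : ℕ) (c d : Pt0) : Ix
  | dQ (c : Pt0) : Ix
  | cl (c : Pt0) : Ix

open Classical in
/-- a formula or its negation -/
noncomputable def sg (p : Prop) (φ : LB.BoundedFormula Empty k) : LB.BoundedFormula Empty k := if p then φ else φ.not

theorem qsg (p : Prop) {φ : LB.BoundedFormula Empty k} (h : φ.IsQF) : (sg p φ).IsQF := by
  unfold sg
  split_ifs
  · exact h
  · exact h.not

theorem rsg {N : Type} [s : LB.Structure N] (p : Prop) (φ : LB.BoundedFormula Empty k) (v : Empty → N) (xs : Fin k → N) :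
    (sg p φ).Realize v xs ↔ (φ.Realize v xs ↔ p) := by
  unfold sg
  split_ifs with h
  · simp [h]
  · simp [h]

/-- the sentences -/
noncomputable def ax : Ix → LB.Sentence
  | Ix.refl i => BoundedFormula.all (n := 0) (fE i (0 : Fin 1) (0 : Fin 1))
  | Ix.symm i => BoundedFormula.all (n := 0) (BoundedFormula.all (n := 1) ((fE i (0 : Fin 2) (1 : Fin 2)).imp (fE i (1 : Fin 2) (0 : Fin 2))))
  | Ix.trans i => BoundedFormula.all (n := 0) (BoundedFormula.all (n := 1) (BoundedFormula.all (n := 2)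
      ((fE i (0 : Fin 3) (1 : Fin 3)).imp ((fE i (1 : Fin 3) (2 : Fin 3)).imp (fE i (0 : Fin 3) (2 : Fin 3))))))
  | Ix.nest i => BoundedFormula.all (n := 0) (BoundedFormula.all (n := 1) ((fE (i + 1) (0 : Fin 2) (1 : Fin 2)).imp (fE i (0 : Fin 2) (1 : Fin 2))))
  | Ix.exi c => BoundedFormula.ex (n := 0) (fU c (0 : Fin 1))
  | Ix.uni c => BoundedFormula.all (n := 0) (BoundedFormula.all (n := 1) ((fU c (0 : Fin 2)).imp ((fU c (1 : Fin 2)).imp (fq (0 : Fin 2) (1 : Fin 2)))))
  | Ix.dif c d _ => BoundedFormula.all (n := 0) ((fU c (0 : Fin 1)).imp (fU d (0 : Fin 1)).not)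
  | Ix.dE i c d => BoundedFormula.all (n := 0) (BoundedFormula.all (n := 1) ((fU c (0 : Fin 2)).imp ((fU d (1 : Fin 2)).imp
      (sg (E0 i c d) (fE i (0 : Fin 2) (1 : Fin 2))))))
  | Ix.dQ c => BoundedFormula.all (n := 0) ((fU c (0 : Fin 1)).imp (sg (Q0 c) (fQ (0 : Fin 1))))
  | Ix.cl c => BoundedFormula.all (n := 0) (BoundedFormula.all (n := 1) ((fU c (0 : Fin 2)).imp ((fE 0 (0 : Fin 2) (1 : Fin 2)).imp
      (fD c (1 : Fin 2)))))

theorem lv_all {φ : LB.Sentence} (h : Lv false 1 φ) : Lv true 2 φ := Lv.up (b := true) (n := 1) h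

theorem lv_ax (a : Ix) : Lv true 2 (ax a) := by
  rcases a with i | i | i | i | c | c | ⟨c, d, h⟩ | ⟨i, c, d⟩ | c | c
  · exact lv_all (Lv.all (n := 0) (Lv.qf (qE _ _ _)))
  · exact lv_all (Lv.all (n := 0) (Lv.all (n := 0) (Lv.qf ((qE _ _ _).imp (qE _ _ _)))))
  · exact lv_all (Lv.all (n := 0) (Lv.all (n := 0) (Lv.all (n := 0) (Lv.qf ((qE _ _ _).imp ((qE _ _ _).imp (qE _ _ _)))))))
  · exact lv_all (Lv.all (n := 0) (Lv.all (n := 0) (Lv.qf ((qE _ _ _).imp (qE _ _ _)))))
  · exact Lv.ex (n := 1) (Lv.qf (qU _ _))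
  · exact lv_all (Lv.all (n := 0) (Lv.all (n := 0) (Lv.qf ((qU _ _).imp ((qU _ _).imp (qq _ _))))))
  · exact lv_all (Lv.all (n := 0) (Lv.qf ((qU _ _).imp (qU _ _).not)))
  · exact lv_all (Lv.all (n := 0) (Lv.all (n := 0) (Lv.qf ((qU _ _).imp ((qU _ _).imp (qsg _ (qE _ _ _)))))))
  · exact lv_all (Lv.all (n := 0) (Lv.qf ((qU _ _).imp (qsg _ (qQ _)))))
  · exact lv_all (Lv.all (n := 0) (Lv.all (n := 0) (Lv.qf ((qU _ _).imp ((qE _ _ _).imp (qD _ _))))))

/-- the meaning -/
def mng (N : Type) [s : LB.Structure N] : Ix → Prop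
  | Ix.refl i => ∀ x : N, sE i x x
  | Ix.symm i => ∀ x y : N, sE i x y → sE i y x
  | Ix.trans i => ∀ x y z : N, sE i x y → sE i y z → sE i x z
  | Ix.nest i => ∀ x y : N, sE (i + 1) x y → sE i x y
  | Ix.exi c => ∃ x : N, sU c x
  | Ix.uni c => ∀ x y : N, sU c x → sU c y → x = y
  | Ix.dif c d _ => ∀ x : N, sU c x → ¬ sU d x
  | Ix.dE i c d => ∀ x y : N, sU c x → sU d y → (sE i x y ↔ E0 i c d)
  | Ix.dQ c => ∀ x : N, sU c x → (sQ x ↔ Q0 c)
  | Ix.cl c => ∀ x y : N, sU c x → sE 0 x y → ∃ d : Pt0, c.1.1 = d.1.1 ∧ sU d y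

theorem real_ax (N : Type) [s : LB.Structure N] (a : Ix) : N ⊨ ax a ↔ mng N a := by
  unfold Sentence.Realize Formula.Realize
  rcases a with i | i | i | i | c | c | ⟨c, d, h⟩ | ⟨i, c, d⟩ | c | c
  all_goals simp only [ax, mng, BoundedFormula.realize_all, BoundedFormula.realize_ex, BoundedFormula.realize_imp,
    BoundedFormula.realize_not, rU, rQ, rE, rq, rD, rsg]
  all_goals rfl

end AX

open AX in
theorem ax : S_AX := by
  classical
  refine ⟨Set.range AX.ax, ?_, fun N s => ?_⟩
  · rintro _ ⟨a, rfl⟩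
    exact lv_ax a
  · let := s
    have hm : @Theory.Model LB N s (Set.range AX.ax) ↔ ∀ a, mng N a := by
      rw [Theory.model_iff]
      constructor
      · intro h a
        exact (real_ax N a).1 (h _ ⟨a, rfl⟩)
      · rintro h _ ⟨a, rfl⟩
        exact (real_ax N a).2 (h a)
    rw [hm]
    constructor
    · intro h
      have hex : ∀ c, ∃ x : N, sU c x := fun c => h (Ix.exi c)
      choose nm hnm using hex
      have huni : ∀ c (x : N), sU c x → x = nm c := fun c x hx => h (Ix.uni c) x (nm c) hx (hnm c)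
      refine ⟨⟨fun i x y => sE i x y, fun x => sQ x, nm⟩, ?_, ?_⟩
      · refine ⟨fun i => ⟨h (Ix.refl i), fun {x y} => h (Ix.symm i) x y, fun {x y z} => h (Ix.trans i) x y z⟩,
          fun i => h (Ix.nest i), ?_, ?_, ?_, ?_⟩
        · intro c d hcd
          by_contra hne
          refine h (Ix.dif c d hne) (nm c) (hnm c) ?_
          have : nm c = nm d := hcd
          rw [this]
          exact hnm d
        · intro i c d
          exact h (Ix.dE i c d) _ _ (hnm c) (hnm d)
        · intro c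
          exact h (Ix.dQ c) _ (hnm c)
        · intro c y hy
          obtain ⟨d, -, hd⟩ := h (Ix.cl c) _ _ (hnm c) hy
          exact ⟨d, huni d y hd⟩
      · refine Structure.ext ?_ ?_
        · funext n f
          exact f.elim
        · funext n r v
          rcases r with c | _ | i
          · have hv : v = ![v 0] := by
              funext j
              rw [Subsingleton.elim j 0]
              rfl
            show s.RelMap (Rel.U c : LB.Relations 1) v = (v 0 = nm c)
            rw [hv]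
            refine propext ⟨fun hx => huni c _ hx, fun hx => ?_⟩
            have : ![v 0] = ![nm c] := by
              have hx' : v 0 = nm c := hx
              rw [hx']
            rw [this]
            exact hnm c
          · have hv : v = ![v 0] := by
              funext j
              rw [Subsingleton.elim j 0]
              rfl
            show s.RelMap (Rel.Q : LB.Relations 1) v = sQ (v 0)
            unfold sQ
            rw [← hv]
          · have hv : v = ![v 0, v 1] := by
              funext j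
              fin_cases j <;> rfl
            show s.RelMap (Rel.E i : LB.Relations 2) v = sE i (v 0) (v 1)
            unfold sE
            rw [← hv]
    · rintro ⟨X, hX, hs⟩
      have e1 : ∀ (i : ℕ) (x y : N), sE (s := s) i x y ↔ X.E i x y := by
        intro i x y
        subst hs
        exact Iff.rfl
      have e2 : ∀ (x : N), sQ (s := s) x ↔ X.Q x := by
        intro x
        subst hs
        exact Iff.rfl
      have e3 : ∀ (c : Pt0) (x : N), sU (s := s) c x ↔ x = X.nm c := by
        intro c x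
        subst hs
        exact Iff.rfl
      rintro (i | i | i | i | c | c | ⟨c, d, h⟩ | ⟨i, c, d⟩ | c | c)
      · intro x
        exact (e1 _ _ _).2 ((hX.eqv i).refl x)
      · intro x y hxy
        exact (e1 _ _ _).2 ((hX.eqv i).symm ((e1 _ _ _).1 hxy))
      · intro x y z hxy hyz
        exact (e1 _ _ _).2 ((hX.eqv i).trans ((e1 _ _ _).1 hxy) ((e1 _ _ _).1 hyz))
      · intro x y hxy
        exact (e1 _ _ _).2 (hX.nest i x y ((e1 _ _ _).1 hxy))
      · exact ⟨X.nm c, (e3 _ _).2 rfl⟩
      · intro x y hx hy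
        rw [(e3 _ _).1 hx, (e3 _ _).1 hy]
      · intro x hx hy
        exact h (hX.inj (((e3 _ _).1 hx).symm.trans ((e3 _ _).1 hy)))
      · intro x y hx hy
        rw [e1, (e3 _ _).1 hx, (e3 _ _).1 hy]
        exact hX.hE i c d
      · intro x hx
        rw [e2, (e3 _ _).1 hx]
        exact hX.hQ c
      · intro x y hx hxy
        rw [e1, (e3 _ _).1 hx] at hxy
        obtain ⟨d, rfl⟩ := hX.cl c y hxy
        exact ⟨d, ((hX.hE 0 c d).1 hxy).1, (e3 _ _).2 rfl⟩

end Run7.h520.BU
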